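import Pool.Agent.MWN.StmtsH

/-!
Squad MWN, row NIS: insertion of an absorbing letter.
-/

set_option autoImplicit false

namespace Pool.Agent.MWN.H53

open Pool.Agent.Helper14_MV Pool.Agent.Helper2_MV Pool.Agent.MVO Pool.Agent.MWL Pool.Agent.MWS
  Pool.Agent.MWF

theorem sub_dbl1 {d e c : ℕ} (hde : d ≠ e) {l Q : List ℕ} (hl : l = [d, e] ∨ l = [e] ∨ l = [])
    (h : List.Sublist l (c :: c :: Q)) : List.Sublist l (c :: Q) := by
  rcases List.sublist_cons_iff.1 h with h1 | ⟨r, hr, h1⟩
  · exact h1
  · rcases List.sublist_cons_iff.1 h1 with h2 | ⟨r', hr', h2⟩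
    · rw [hr]
      exact h2.cons_cons c
    · exfalso
      rw [hr'] at hr
      rcases hl with h3 | h3 | h3
      · rw [h3] at hr
        simp only [List.cons.injEq] at hr
        exact hde (hr.1.trans hr.2.1.symm)
      · rw [h3] at hr
        simp at hr
      · rw [h3] at hr
        simp at hr

theorem sub_dbl {d e c : ℕ} (hde : d ≠ e) (P Q : List ℕ) :
    List.Sublist [d, e] (P ++ c :: c :: Q) ↔ List.Sublist [d, e] (P ++ c :: Q) := by
  constructor
  · intro h
    obtain ⟨l₁, l₂, h1, h2, h3⟩ := List.sublist_append_iff.1 h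
    rw [h1]
    refine h2.append ?_
    refine sub_dbl1 hde ?_ h3
    rcases l₁ with _ | ⟨x, l₁⟩
    · exact Or.inl (by simpa using h1.symm)
    · rcases l₁ with _ | ⟨y, l₁⟩
      · simp only [List.cons_append, List.nil_append, List.cons.injEq] at h1
        exact Or.inr (Or.inl h1.2.symm)
      · simp only [List.cons_append, List.cons.injEq] at h1
        have h4 := (List.append_eq_nil_iff.1 h1.2.2.symm).2
        exact Or.inr (Or.inr h4)
  · intro h
    refine h.trans ?_
    refine (List.Sublist.refl P).append ?_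
    exact (List.Sublist.refl _).cons c

/-- one occurrence of `c` is doubled in some blocks with at least two `c` -/
def Dbl (k c : ℕ) (X Y : ℕ → List ℕ) : Prop :=
  ∀ j ≤ k, X j = Y j ∨
    (∃ P Q : List ℕ, X j = P ++ c :: Q ∧ Y j = P ++ c :: c :: Q ∧ 2 ≤ (X j).count c)

theorem Dbl.mem {k c : ℕ} {X Y : ℕ → List ℕ} (h : Dbl k c X Y) {j : ℕ} (hj : j ≤ k) (d : ℕ) :
    d ∈ Y j ↔ d ∈ X j := by
  rcases h j hj with h1 | ⟨P, Q, h1, h2, -⟩
  · rw [h1]
  · rw [h1, h2]
    simp

theorem Dbl.fst {k c : ℕ} {X Y : ℕ → List ℕ} (h : Dbl k c X Y) {j : ℕ} (hj : j ≤ k) (st : Bool) :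
    Fst st (X j) ↔ Fst st (Y j) := by
  rcases h j hj with h1 | ⟨P, Q, h1, h2, -⟩
  · rw [h1]
  · rw [h1, h2]
    unfold Fst
    cases st
    · exact not_congr (sub_dbl (by decide) P Q).symm
    · exact not_congr (sub_dbl (by decide) P Q).symm

theorem Dbl.sh {k c : ℕ} {X Y : ℕ → List ℕ} (h : Dbl k c X Y) (d : ℕ) :
    Sh k (ty X d) (ty Y d) := by
  intro j hj
  rcases h j hj with h1 | ⟨P, Q, h1, h2, h3⟩
  · left
    unfold ty
    rw [h1]
  · by_cases hd : d = c
    · subst hd
      right
      refine ⟨h3, ?_⟩
      unfold ty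
      rw [h1] at h3
      rw [h2]
      simp only [List.count_append, List.count_cons_self] at h3 ⊢
      omega
    · left
      unfold ty
      rw [h1, h2]
      simp only [List.count_append]
      rw [List.count_cons_of_ne (Ne.symm hd), List.count_cons_of_ne (Ne.symm hd),
        List.count_cons_of_ne (Ne.symm hd)]

theorem Dbl.le {k c : ℕ} {X Y : ℕ → List ℕ} (h : Dbl k c X Y) {j : ℕ} (hj : j ≤ k) (d : ℕ) :
    (X j).count d ≤ (Y j).count d := by
  rcases h j hj with h1 | ⟨P, Q, h1, h2, h3⟩
  · rw [h1]
  · rw [h1, h2]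
    refine List.Sublist.count_le d ?_
    refine (List.Sublist.refl P).append ?_
    exact (List.Sublist.refl _).cons c

theorem Dbl.rr {β : FIC} (hβ : HB β) {k c : ℕ} {X Y : ℕ → List ℕ} (h : Dbl k c X Y)
    (hX : OkB k X) (hX2 : Two01 k X) : RR β (asm k X) (asm k Y) := by
  refine hβ.hst k X Y hX ?_ hX2 ?_ (h.sh 0) (h.sh 1) ?_
  · constructor
    · intro j hj d hd
      exact hX.ok j hj d ((h.mem hj d).1 hd)
    · intro j hj d hd
      refine (hX.ml j hj d ((h.mem hj d).1 hd)).trans ?_
      unfold deg
      refine Finset.sum_le_sum fun t ht => ?_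
      exact h.le (Nat.lt_succ_iff.1 (Finset.mem_range.1 ht)) d
  · intro j hj d hd
    exact hX2 j hj d ((h.mem hj d).1 hd)
  · intro j hj _
    exact ⟨h.fst hj false, h.fst hj true⟩

theorem nis (h1 : MWL.AbsStmt) (h2 : MWL.TrnStmt) (h3 : MWS.ChkStmt) (h4 : NhbStmt) :
    NisStmt := by
  intro β hβ hI k U c i hU hU2 hc hi hdeg hab
  obtain ⟨-, -, -, hLR, -, -⟩ := h4 β hβ hI
  -- the chunks
  have hex : ∀ t, ∃ P Q : List ℕ, ((U t).count c = 0 ∧ P ++ Q = U t) ∨
      (1 ≤ (U t).count c ∧ U t = P ++ c :: Q) := by
    intro t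
    by_cases h0 : (U t).count c = 0
    · exact ⟨U t, [], Or.inl ⟨h0, List.append_nil _⟩⟩
    · have hm : c ∈ U t := List.count_pos_iff.1 (Nat.pos_of_ne_zero h0)
      obtain ⟨P, Q, hPQ⟩ := List.append_of_mem hm
      exact ⟨P, Q, Or.inr ⟨Nat.pos_of_ne_zero h0, hPQ⟩⟩
  choose P Q hPQ using hex
  -- the vector with the entries `min (count) 2` outside of `i`
  obtain ⟨a', ha'⟩ : ∃ a' : ℕ → ℕ, a' = fun j => if j = i then 0 else min ((U j).count c) 2 :=
    ⟨_, rfl⟩
  have ha'i : a' i = 0 := by rw [ha']; simp
  have hnq : Nq 1 k (wo i (ty U c)) a' := by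
    intro j hj
    by_cases hji : j = i
    · left
      rw [hji, ha'i]
      simp [wo]
    · have e1 : wo i (ty U c) j = (U j).count c := by simp [wo, ty, hji]
      have e2 : a' j = min ((U j).count c) 2 := by rw [ha']; simp [hji]
      rcases lt_or_ge ((U j).count c) 2 with h5 | h5
      · left
        rw [e1, e2]
        omega
      · right
        refine ⟨⟨?_, j, le_rfl, ?_⟩, ⟨?_, j, le_rfl, ?_⟩, Nat.modEq_one⟩
        · rw [e1]
          omega
        · rw [e1]
          exact h5
        · rw [e2]
          omega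
        · rw [e2]
          omega
  have hrel : (FC.ofFIC β).R k (wo i (ty U c)) a' :=
    (h1 1 (FC.ofFIC β) hLR k (wo i (ty U c))).2 a' hnq
  have hab' : Ab 1 (FC.ofFIC β) k a' i :=
    ((h2 1 (FC.ofFIC β) k (wo i (ty U c)) i).1 a' hrel).1 hab
  have hL : L1 β k a' (ad 1 a' i) := hab'
  -- the two families
  obtain ⟨G, hG⟩ : ∃ G : List ℕ → ℕ → List ℕ, G = fun W j => if j = i then W else U j :=
    ⟨_, rfl⟩
  obtain ⟨F, hF⟩ : ∃ F : List ℕ → ℕ → List ℕ, F = fun W j =>
      if j = i then W else P j ++ List.replicate (a' j) c ++ Q j := ⟨_, rfl⟩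
  have hGi : ∀ W, G W i = W := fun W => by rw [hG]; simp
  have hGj : ∀ W j, j ≠ i → G W j = U j := fun W j hj => by rw [hG]; simp [hj]
  have hDbl : ∀ W, Dbl k c (G W) (F W) := by
    intro W j hj
    by_cases hji : j = i
    · left
      rw [hG, hF]
      simp [hji]
    · have e2 : a' j = min ((U j).count c) 2 := by rw [ha']; simp [hji]
      have eF : F W j = P j ++ List.replicate (a' j) c ++ Q j := by rw [hF]; simp [hji]
      rw [hGj W j hji, eF, e2]
      rcases hPQ j with ⟨h5, h6⟩ | ⟨h5, h6⟩
      · left
        rw [h5]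
        simp [h6]
      · rcases Nat.lt_or_ge ((U j).count c) 2 with h7 | h7
        · left
          have h8 : min ((U j).count c) 2 = 1 := by omega
          rw [h8]
          conv_lhs => rw [h6]
          simp
        · right
          have h8 : min ((U j).count c) 2 = 2 := by omega
          refine ⟨P j, Q j, h6, ?_, h7⟩
          rw [h8]
          simp [List.replicate]
  -- the admissible contents of block `i`
  have hok : ∀ W, (∀ d, (U i).count d ≤ W.count d) → (∀ d ∈ W, d = c ∨ d ∈ U i) →
      OkB k (G W) ∧ Two01 k (G W) := by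
    intro W hW1 hW2
    have hdle : ∀ d, deg k (fun j => (U j).count d) ≤ deg k (fun j => (G W j).count d) := by
      intro d
      unfold deg
      refine Finset.sum_le_sum fun t _ => ?_
      by_cases hti : t = i
      · subst hti
        simp only [hGi]
        exact hW1 d
      · simp only [hGj W t hti]
        exact le_rfl
    have hcdeg : 2 ≤ deg k (fun j => (G W j).count c) := by
      refine hdeg.trans ?_
      unfold deg
      refine Finset.sum_le_sum fun t _ => ?_
      by_cases hti : t = i
      · simp [wo, hti]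
      · simp only [hGj W t hti]
        simp [wo, ty, hti]
    have hc01 : NS k c := by
      unfold NS
      rcases hc with h | h <;> omega
    refine ⟨⟨?_, ?_⟩, ?_⟩
    · intro j hj d hd
      by_cases hji : j = i
      · subst hji
        rw [hGi] at hd
        rcases hW2 d hd with h | h
        · rw [h]
          exact hc01
        · exact hU.ok j hj d h
      · rw [hGj W j hji] at hd
        exact hU.ok j hj d hd
    · intro j hj d hd
      by_cases hji : j = i
      · subst hji
        rw [hGi] at hd
        rcases hW2 d hd with h | h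
        · rw [h]
          exact hcdeg
        · exact (hU.ml j hj d h).trans (hdle d)
      · rw [hGj W j hji] at hd
        exact (hU.ml j hj d hd).trans (hdle d)
    · intro j hj d hd
      by_cases hji : j = i
      · subst hji
        rw [hGi] at hd
        rcases hW2 d hd with h | h
        · rw [h]
          exact hc
        · exact hU2 j hj d h
      · rw [hGj W j hji] at hd
        exact hU2 j hj d hd
  have hGF : ∀ W, (∀ d, (U i).count d ≤ W.count d) → (∀ d ∈ W, d = c ∨ d ∈ U i) →
      RR β (asm k (G W)) (asm k (F W)) := fun W hW1 hW2 =>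
    (hDbl W).rr hβ (hok W hW1 hW2).1 (hok W hW1 hW2).2
  -- the insertion
  have hins : ∀ A B : List ℕ, RR β (asm k (F (A ++ B))) (asm k (F (A ++ [c, c] ++ B))) := by
    intro A B
    have h5 := h3 β k a' (ad 1 a' i) c (fun j => if j = i then A else P j)
      (fun j => if j = i then B else Q j) hL
    have e1 : asm k (fun j => (if j = i then A else P j) ++ List.replicate (a' j) c ++
        (if j = i then B else Q j)) = asm k (F (A ++ B)) := by
      refine asm_congr fun j _ => ?_
      by_cases hji : j = i
      · rw [hF]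
        simp [hji, ha'i]
      · rw [hF]
        simp [hji]
    have e2 : asm k (fun j => (if j = i then A else P j) ++ List.replicate (ad 1 a' i j) c ++
        (if j = i then B else Q j)) = asm k (F (A ++ [c, c] ++ B)) := by
      refine asm_congr fun j _ => ?_
      by_cases hji : j = i
      · rw [hF]
        simp [hji, ha'i, ad, List.replicate]
      · rw [hF]
        simp [hji, ad]
    rw [e1, e2] at h5
    exact h5
  have s0 : asm k U = asm k (G (U i)) := by
    refine asm_congr fun j _ => ?_
    by_cases hji : j = i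
    · rw [hji, hGi]
    · rw [hGj _ j hji]
  have s1 := hGF (U i) (fun d => le_rfl) (fun d hd => Or.inr hd)
  have s2 := hins (U i) []
  have s3 := hins [] (U i ++ [c, c])
  have s4 := hGF (c :: c :: (U i ++ [c, c])) (fun d => by
      have h5 : List.Sublist (U i) (c :: c :: (U i ++ [c, c])) :=
        ((List.sublist_append_left _ _).cons c).cons c
      exact h5.count_le d) (fun d hd => by
      simp only [List.mem_cons, List.mem_append, List.not_mem_nil, or_false, or_self] at hd
      rcases hd with h | h | h | h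
      · exact Or.inl h
      · exact Or.inl h
      · exact Or.inr h
      · exact Or.inl h)
  have s5 : asm k (Function.update U i (c :: c :: (U i ++ [c, c]))) =
      asm k (G (c :: c :: (U i ++ [c, c]))) := by
    refine asm_congr fun j _ => ?_
    by_cases hji : j = i
    · rw [hji, hGi, Function.update_self]
    · rw [hGj _ j hji, Function.update_of_ne hji]
  rw [s0, s5]
  rw [List.append_nil, List.append_nil] at s2
  rw [List.nil_append, List.nil_append, List.cons_append, List.cons_append,
    List.nil_append] at s3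
  exact β.trans s1 (β.trans s2 (β.trans s3 (RR.symm s4)))

end Pool.Agent.MWN.H53
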